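import Mathlib

set_option autoImplicit false

namespace Pool.Agent.Results.MP_a9cc6a_nt.DelannoyThree

open Finset Polynomial

/-- The sum `a(n) = ∑_{k=0}^{n} C(n,k) C(n+k,k)` (the central Delannoy numbers). -/
def a (n : ℕ) : ℕ := ∑ k ∈ range (n + 1), n.choose k * (n + k).choose k

theorem coeff_one (n : ℕ) : (((X + 1 : ℕ[X]) * (X + 2)) ^ n).coeff n = a n := by
  have h : ((X + 1 : ℕ[X]) * (X + 2)) ^ n =
      ∑ j ∈ range (n + 1), C (n.choose j) * (X + 1) ^ (n + j) := by
    have h2 : (X + 2 : ℕ[X]) = (X + 1) + 1 := by ring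
    rw [mul_pow, h2, add_pow (X + 1 : ℕ[X]) 1 n, Finset.mul_sum]
    refine sum_congr rfl fun j _ => ?_
    rw [one_pow, mul_one, pow_add, ← C_eq_natCast]
    simp only [Nat.cast_id]
    ring
  rw [h, finsetSum_coeff, a]
  refine sum_congr rfl fun j _ => ?_
  rw [coeff_C_mul, coeff_X_add_one_pow, Nat.cast_id, Nat.choose_symm_add]

theorem coeff_two (n : ℕ) : (((X + 1 : ℕ[X]) * (X + 2)) ^ n).coeff n =
    ∑ j ∈ range (n + 1), n.choose j * 3 ^ (n - j) *
      (if j % 2 = 0 then j.choose (j / 2) * 2 ^ (j / 2) else 0) := by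
  have h : ((X + 1 : ℕ[X]) * (X + 2)) ^ n =
      ∑ j ∈ range (n + 1), C (n.choose j * 3 ^ (n - j)) * (X ^ 2 + 2) ^ j * X ^ (n - j) := by
    have h2 : (X + 1 : ℕ[X]) * (X + 2) = (X ^ 2 + 2) + 3 * X := by ring
    rw [h2, add_pow]
    refine sum_congr rfl fun j _ => ?_
    rw [mul_pow, C_mul, C_pow]
    have e1 : (C (n.choose j) : ℕ[X]) = ((n.choose j : ℕ) : ℕ[X]) := by
      rw [← C_eq_natCast, Nat.cast_id]
    have e3 : (C 3 : ℕ[X]) = 3 := rfl
    rw [e1, e3]
    ring
  rw [h, finsetSum_coeff]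
  refine sum_congr rfl fun j hj => ?_
  rw [mem_range] at hj
  rw [coeff_mul_X_pow', if_pos (by omega), show n - (n - j) = j by omega, coeff_C_mul]
  congr 1
  rw [add_pow, finsetSum_coeff]
  have ht : ∀ i, ((X ^ 2 : ℕ[X]) ^ i * 2 ^ (j - i) * ((j.choose i : ℕ) : ℕ[X])).coeff j =
      if j = 2 * i then 2 ^ (j - i) * j.choose i else 0 := by
    intro i
    have : ((X ^ 2 : ℕ[X]) ^ i * 2 ^ (j - i) * ((j.choose i : ℕ) : ℕ[X])) =
        C (2 ^ (j - i) * j.choose i) * X ^ (2 * i) := by
      rw [C_mul, C_pow]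
      have e1 : (C (j.choose i) : ℕ[X]) = ((j.choose i : ℕ) : ℕ[X]) := by
        rw [← C_eq_natCast, Nat.cast_id]
      have e3 : (C 2 : ℕ[X]) = 2 := rfl
      rw [e1, e3, pow_mul]
      ring
    rw [this, coeff_C_mul, coeff_X_pow]
    split_ifs <;> simp
  rw [sum_congr rfl fun i _ => ht i]
  split_ifs with hj2
  · rw [sum_eq_single (j / 2)]
    · rw [if_pos (by omega)]
      have : j - j / 2 = j / 2 := by omega
      rw [this, mul_comm]
    · intro i _ hi
      rw [if_neg (by omega)]
    · intro hi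
      exact absurd (mem_range.2 (by omega)) hi
  · refine sum_eq_zero fun i _ => ?_
    rw [if_neg (by omega)]

/-- Even part. -/
def E (m : ℕ) : ℕ := ∑ k ∈ range (m + 1), (2 * m).choose (2 * k) * (2 * k).choose k * 9 ^ (m - k) * 2 ^ k

/-- Odd part. -/
def O (m : ℕ) : ℕ :=
  ∑ k ∈ range (m + 1), (2 * m + 1).choose (2 * k) * (2 * k).choose k * 9 ^ (m - k) * 2 ^ k

theorem sum_even_odd (f : ℕ → ℕ) (m : ℕ) :
    ∑ j ∈ range (2 * m), f j = ∑ k ∈ range m, (f (2 * k) + f (2 * k + 1)) := by
  induction m with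
  | zero => simp
  | succ m ih =>
    rw [show 2 * (m + 1) = 2 * m + 1 + 1 by ring, sum_range_succ, sum_range_succ, ih,
      sum_range_succ]
    ring

theorem a_even (m : ℕ) : a (2 * m) = E m := by
  rw [← coeff_one, coeff_two, sum_range_succ, sum_even_odd, E, sum_range_succ]
  congr 1
  · refine sum_congr rfl fun k hk => ?_
    rw [mem_range] at hk
    rw [if_pos (by omega), if_neg (by omega)]
    have h1 : 2 * k / 2 = k := by omega
    have h2 : 3 ^ (2 * m - 2 * k) = 9 ^ (m - k) := by
      rw [show 2 * m - 2 * k = 2 * (m - k) by omega, pow_mul]; norm_num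
    rw [h1, h2]; ring
  · rw [if_pos (by omega)]
    have h1 : 2 * m / 2 = m := by omega
    simp [h1]

theorem a_odd (m : ℕ) : a (2 * m + 1) = 3 * O m := by
  rw [← coeff_one, coeff_two, show 2 * m + 1 + 1 = 2 * (m + 1) by ring, sum_even_odd, O,
    Finset.mul_sum]
  refine sum_congr rfl fun k hk => ?_
  rw [mem_range] at hk
  rw [if_pos (by omega), if_neg (by omega)]
  have h1 : 2 * k / 2 = k := by omega
  have h2 : 3 ^ (2 * m + 1 - 2 * k) = 3 * 9 ^ (m - k) := by
    rw [show 2 * m + 1 - 2 * k = 2 * (m - k) + 1 by omega, pow_succ, pow_mul]; norm_num [mul_comm]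
  rw [h1, h2]; ring

theorem idE (k j : ℕ) : (2 * (k + j)).choose (2 * k) * (2 * k).choose k * (2 * j).choose j =
    (2 * (k + j)).choose (k + j) * ((k + j).choose j) ^ 2 := by
  have h1 := Nat.choose_mul_factorial_mul_factorial (show 2 * k ≤ 2 * (k + j) by omega)
  have h2 := Nat.choose_mul_factorial_mul_factorial (show k ≤ 2 * k by omega)
  have h3 := Nat.choose_mul_factorial_mul_factorial (show j ≤ 2 * j by omega)
  have h4 := Nat.choose_mul_factorial_mul_factorial (show k + j ≤ 2 * (k + j) by omega)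
  have h5 := Nat.choose_mul_factorial_mul_factorial (show j ≤ k + j by omega)
  rw [show 2 * (k + j) - 2 * k = 2 * j by omega] at h1
  rw [show 2 * k - k = k by omega] at h2
  rw [show 2 * j - j = j by omega] at h3
  rw [show 2 * (k + j) - (k + j) = k + j by omega] at h4
  rw [show k + j - j = k by omega] at h5
  have hk := k.factorial_pos
  have hj := j.factorial_pos
  have hkj := (k + j).factorial_pos
  have h2k := (2 * k).factorial_pos
  have h2j := (2 * j).factorial_pos
  apply Nat.eq_of_mul_eq_mul_right (show 0 < (k.factorial * j.factorial) ^ 2 by positivity)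
  calc (2 * (k + j)).choose (2 * k) * (2 * k).choose k * (2 * j).choose j *
        (k.factorial * j.factorial) ^ 2
      = (2 * (k + j)).choose (2 * k) * ((2 * k).choose k * k.factorial * k.factorial) *
        ((2 * j).choose j * j.factorial * j.factorial) := by ring
    _ = (2 * (k + j)).factorial := by rw [h2, h3, h1]
    _ = (2 * (k + j)).choose (k + j) * (k + j).factorial * (k + j).factorial := h4.symm
    _ = (2 * (k + j)).choose (k + j) * ((k + j).choose j * j.factorial * k.factorial) ^ 2 := by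
        rw [h5]; ring
    _ = _ := by ring

theorem idO (k j : ℕ) : (2 * (k + j) + 1).choose (2 * k) * (2 * k).choose k *
      ((2 * j + 1) * (2 * j).choose j) =
    ((2 * (k + j) + 1) * (2 * (k + j)).choose (k + j)) * ((k + j).choose j) ^ 2 := by
  have h1 := Nat.choose_mul_factorial_mul_factorial (show 2 * k ≤ 2 * (k + j) + 1 by omega)
  have h2 := Nat.choose_mul_factorial_mul_factorial (show k ≤ 2 * k by omega)
  have h3 := Nat.choose_mul_factorial_mul_factorial (show j ≤ 2 * j by omega)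
  have h4 := Nat.choose_mul_factorial_mul_factorial (show k + j ≤ 2 * (k + j) by omega)
  have h5 := Nat.choose_mul_factorial_mul_factorial (show j ≤ k + j by omega)
  rw [show 2 * (k + j) + 1 - 2 * k = 2 * j + 1 by omega, Nat.factorial_succ (2 * j),
    Nat.factorial_succ (2 * (k + j))] at h1
  rw [show 2 * k - k = k by omega] at h2
  rw [show 2 * j - j = j by omega] at h3
  rw [show 2 * (k + j) - (k + j) = k + j by omega] at h4
  rw [show k + j - j = k by omega] at h5
  have hk := k.factorial_pos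
  have hj := j.factorial_pos
  apply Nat.eq_of_mul_eq_mul_right (show 0 < (k.factorial * j.factorial) ^ 2 by positivity)
  calc (2 * (k + j) + 1).choose (2 * k) * (2 * k).choose k * ((2 * j + 1) * (2 * j).choose j) *
        (k.factorial * j.factorial) ^ 2
      = (2 * (k + j) + 1).choose (2 * k) * ((2 * k).choose k * k.factorial * k.factorial) *
        ((2 * j + 1) * ((2 * j).choose j * j.factorial * j.factorial)) := by ring
    _ = (2 * (k + j) + 1) * (2 * (k + j)).factorial := by rw [h2, h3, ← h1]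
    _ = (2 * (k + j) + 1) * ((2 * (k + j)).choose (k + j) * (k + j).factorial *
        (k + j).factorial) := by rw [h4]
    _ = (2 * (k + j) + 1) * ((2 * (k + j)).choose (k + j) *
        ((k + j).choose j * j.factorial * k.factorial) ^ 2) := by
        rw [h5]; ring
    _ = _ := by ring

/-- If `d t = u c 9^j` with `0 < d < 9^j`, then `3^(v(u)+1)` divides `t`. -/
theorem dvd_aux (u d t c j : ℕ) (hu : u ≠ 0) (hd : d ≠ 0) (hlt : d < 9 ^ j)
    (h : t * d = u * c * 9 ^ j) : 3 ^ (padicValNat 3 u + 1) ∣ t := by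
  rcases Nat.eq_zero_or_pos c with hc | hc
  · subst hc
    rw [mul_zero, zero_mul] at h
    rcases Nat.mul_eq_zero.1 h with h | h
    · rw [h]; exact dvd_zero _
    · exact absurd h hd
  have ht : t ≠ 0 := by
    rintro rfl
    rw [zero_mul] at h
    have : u * c * 9 ^ j ≠ 0 := by positivity
    exact this h.symm
  have : Fact (Nat.Prime 3) := ⟨Nat.prime_three⟩
  have h9 : (9 : ℕ) ^ j = 3 ^ (2 * j) := by rw [pow_mul]; norm_num
  have hv := congrArg (padicValNat 3) h
  rw [padicValNat.mul ht hd, padicValNat.mul (by positivity) (by positivity),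
    padicValNat.mul hu (by omega), h9, padicValNat.prime_pow] at hv
  have hd2 : padicValNat 3 d < 2 * j := by
    have h1 : 3 ^ padicValNat 3 d ≤ d := Nat.le_of_dvd (by omega) pow_padicValNat_dvd
    rw [h9] at hlt
    exact (Nat.pow_lt_pow_iff_right (by norm_num)).1 (h1.trans_lt hlt)
  have hle : padicValNat 3 u + 1 ≤ padicValNat 3 t := by omega
  exact (pow_dvd_pow 3 hle).trans pow_padicValNat_dvd

theorem val_add (u w : ℕ) (hu : u ≠ 0) (hw : 3 ^ (padicValNat 3 u + 1) ∣ w) :
    padicValNat 3 (w + u) = padicValNat 3 u := by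
  have : Fact (Nat.Prime 3) := ⟨Nat.prime_three⟩
  have h1 : 3 ^ padicValNat 3 u ∣ w + u :=
    dvd_add ((pow_dvd_pow 3 (Nat.le_succ _)).trans hw) pow_padicValNat_dvd
  have h2 : ¬ 3 ^ (padicValNat 3 u + 1) ∣ w + u := by
    intro h
    exact pow_succ_padicValNat_not_dvd hu ((Nat.dvd_add_right hw).1 h)
  have hne : w + u ≠ 0 := by omega
  rw [padicValNat_dvd_iff_le hne] at h1 h2
  omega

theorem four_pow_lt (j : ℕ) (hj : 1 ≤ j) : (2 * j + 1) * 4 ^ j < 9 ^ j ∨ j = 1 := by
  induction j, hj using Nat.le_induction with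
  | base => right; rfl
  | succ j hj ih =>
    left
    rcases ih with h | h
    · have : (2 * (j + 1) + 1) * 4 ≤ (2 * j + 1) * 9 := by omega
      calc (2 * (j + 1) + 1) * 4 ^ (j + 1) = ((2 * (j + 1) + 1) * 4) * 4 ^ j := by ring
        _ ≤ ((2 * j + 1) * 9) * 4 ^ j := Nat.mul_le_mul_right _ this
        _ = ((2 * j + 1) * 4 ^ j) * 9 := by ring
        _ < 9 ^ j * 9 := Nat.mul_lt_mul_of_pos_right h (by norm_num)
        _ = 9 ^ (j + 1) := by ring
    · subst h; norm_num

theorem oddcb_lt (j : ℕ) (hj : 1 ≤ j) : (2 * j + 1) * (2 * j).choose j < 9 ^ j := by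
  rcases four_pow_lt j hj with h | h
  · have h1 : (2 * j).choose j ≤ 4 ^ j := by
      have := Nat.choose_le_two_pow (2 * j) j
      rwa [pow_mul] at this
    calc (2 * j + 1) * (2 * j).choose j ≤ (2 * j + 1) * 4 ^ j := Nat.mul_le_mul_left _ h1
      _ < 9 ^ j := h
  · subst h; decide

theorem cb_ne (m : ℕ) : (2 * m).choose m ≠ 0 := (Nat.choose_pos (by omega)).ne'

theorem v_two_pow (m : ℕ) : padicValNat 3 (2 ^ m) = 0 := by
  refine padicValNat.eq_zero_of_not_dvd fun h => ?_
  have := Nat.prime_three.dvd_of_dvd_pow h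
  omega

theorem val_E (m : ℕ) : padicValNat 3 (E m) = padicValNat 3 ((2 * m).choose m) := by
  have : Fact (Nat.Prime 3) := ⟨Nat.prime_three⟩
  have hu : (2 * m).choose m * 2 ^ m ≠ 0 := mul_ne_zero (cb_ne m) (by positivity)
  have hv : padicValNat 3 ((2 * m).choose m * 2 ^ m) = padicValNat 3 ((2 * m).choose m) := by
    rw [padicValNat.mul (cb_ne m) (by positivity), v_two_pow, add_zero]
  rw [← hv, E, sum_range_succ]
  have e : (2 * m).choose (2 * m) * (2 * m).choose m * 9 ^ (m - m) * 2 ^ m =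
      (2 * m).choose m * 2 ^ m := by simp
  rw [e]
  refine val_add _ _ hu (dvd_sum fun k hk => ?_)
  rw [mem_range] at hk
  rw [hv]
  obtain ⟨j, rfl⟩ : ∃ j, m = k + j := ⟨m - k, by omega⟩
  have hj : 1 ≤ j := by omega
  refine Dvd.dvd.mul_right ?_ _
  refine dvd_aux _ ((2 * j).choose j) _ (((k + j).choose j) ^ 2) j (cb_ne _) (cb_ne _) ?_ ?_
  · refine lt_of_le_of_lt ?_ (oddcb_lt j hj)
    exact Nat.le_mul_of_pos_left _ (by omega)
  · rw [show k + j - k = j by omega, ← idE]
    ring

theorem val_O (m : ℕ) :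
    padicValNat 3 (O m) = padicValNat 3 (2 * m + 1) + padicValNat 3 ((2 * m).choose m) := by
  have : Fact (Nat.Prime 3) := ⟨Nat.prime_three⟩
  have hc : (2 * m + 1) * (2 * m).choose m ≠ 0 := mul_ne_zero (by omega) (cb_ne m)
  have hu : (2 * m + 1) * (2 * m).choose m * 2 ^ m ≠ 0 := mul_ne_zero hc (by positivity)
  have hv : padicValNat 3 ((2 * m + 1) * (2 * m).choose m * 2 ^ m) =
      padicValNat 3 ((2 * m + 1) * (2 * m).choose m) := by
    rw [padicValNat.mul hc (by positivity), v_two_pow, add_zero]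
  rw [← padicValNat.mul (by omega) (cb_ne m), ← hv, O, sum_range_succ]
  have e : (2 * m + 1).choose (2 * m) * (2 * m).choose m * 9 ^ (m - m) * 2 ^ m =
      (2 * m + 1) * (2 * m).choose m * 2 ^ m := by simp
  rw [e]
  refine val_add _ _ hu (dvd_sum fun k hk => ?_)
  rw [mem_range] at hk
  rw [hv]
  obtain ⟨j, rfl⟩ : ∃ j, m = k + j := ⟨m - k, by omega⟩
  have hj : 1 ≤ j := by omega
  refine Dvd.dvd.mul_right ?_ _
  refine dvd_aux _ ((2 * j + 1) * (2 * j).choose j) _ (((k + j).choose j) ^ 2) j hc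
    (mul_ne_zero (by omega) (cb_ne _)) (oddcb_lt j hj) ?_
  rw [show k + j - k = j by omega, ← idO]
  ring

/-- Valuation of the central binomial coefficient. -/
def c (m : ℕ) : ℕ := padicValNat 3 ((2 * m).choose m)

/-- Valuation at three. -/
def v (m : ℕ) : ℕ := padicValNat 3 m

theorem b_even (m : ℕ) : padicValNat 3 (a (2 * m)) = c m := by rw [a_even, val_E, c]

theorem b_odd (m : ℕ) : padicValNat 3 (a (2 * m + 1)) = 1 + v (2 * m + 1) + c m := by
  have : Fact (Nat.Prime 3) := ⟨Nat.prime_three⟩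
  have hO : O m ≠ 0 := by
    rw [O, sum_range_succ]
    have : 0 < (2 * m + 1).choose (2 * m) * (2 * m).choose m * 9 ^ (m - m) * 2 ^ m := by
      have h1 := Nat.choose_pos (show 2 * m ≤ 2 * m + 1 by omega)
      have h2 := Nat.choose_pos (show m ≤ 2 * m by omega)
      positivity
    omega
  rw [a_odd, padicValNat.mul (by norm_num) hO, val_O, c, v]
  simp [add_assoc]

theorem v_zero {x : ℕ} (h : x % 3 ≠ 0) : v x = 0 :=
  padicValNat.eq_zero_of_not_dvd (by omega)

theorem v_three (x : ℕ) (h : x ≠ 0) : v (3 * x) = 1 + v x := by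
  have : Fact (Nat.Prime 3) := ⟨Nat.prime_three⟩
  rw [v, padicValNat.mul (by norm_num) h]
  simp [v]

theorem c_succ (m : ℕ) : v (m + 1) + c (m + 1) = v (2 * m + 1) + c m := by
  have : Fact (Nat.Prime 3) := ⟨Nat.prime_three⟩
  have h := Nat.succ_mul_centralBinom_succ m
  simp only [Nat.centralBinom] at h
  have h' := congrArg (padicValNat 3) h
  rw [padicValNat.mul (by omega) (cb_ne _), padicValNat.mul (by omega) (cb_ne _),
    padicValNat.mul (by norm_num) (by omega), padicValNat_primes (by norm_num : (3:ℕ) ≠ 2)] at h'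
  simpa [v, c] using h'

theorem c_three (r : ℕ) : c (3 * r) = c r := by
  induction r with
  | zero => rfl
  | succ r ih =>
    have h1 := c_succ (3 * r)
    have h2 := c_succ (3 * r + 1)
    have h3 := c_succ (3 * r + 2)
    have h4 := c_succ r
    rw [v_zero (show (3 * r + 1) % 3 ≠ 0 by omega),
      v_zero (show (2 * (3 * r) + 1) % 3 ≠ 0 by omega)] at h1
    rw [v_zero (show (3 * r + 1 + 1) % 3 ≠ 0 by omega),
      show 2 * (3 * r + 1) + 1 = 3 * (2 * r + 1) by ring, v_three _ (by omega)] at h2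
    rw [show 3 * r + 2 + 1 = 3 * (r + 1) by ring, v_three _ (by omega),
      v_zero (show (2 * (3 * r + 2) + 1) % 3 ≠ 0 by omega)] at h3
    simp only [add_assoc] at h1 h2 h3
    norm_num at h1 h2 h3
    omega

theorem c_three_one (r : ℕ) : c (3 * r + 1) = c r := by
  have h1 := c_succ (3 * r)
  rw [v_zero (show (3 * r + 1) % 3 ≠ 0 by omega),
    v_zero (show (2 * (3 * r) + 1) % 3 ≠ 0 by omega), c_three] at h1
  omega

theorem c_three_two (r : ℕ) : c (3 * r + 2) = 1 + v (2 * r + 1) + c r := by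
  have h2 := c_succ (3 * r + 1)
  rw [v_zero (show (3 * r + 1 + 1) % 3 ≠ 0 by omega),
    show 2 * (3 * r + 1) + 1 = 3 * (2 * r + 1) by ring, v_three _ (by omega), c_three_one] at h2
  have : c (3 * r + 2) = c (3 * r + 1 + 1) := rfl
  omega

/-- **The 3-adic valuation of the central Delannoy numbers.** With `b(n) = v₃(a(n))`, one has
`b(n) = b(⌊n/9⌋) + 1` if `n ≡ 1 (mod 3)` and `b(n) = b(⌊n/3⌋) + (⌊n/3⌋ mod 2)` otherwise. -/
theorem result : ∀ n : ℕ, padicValNat 3 (a n) =
    if n % 3 = 1 then padicValNat 3 (a (n / 9)) + 1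
    else padicValNat 3 (a (n / 3)) + (n / 3) % 2 := by
  intro n
  obtain ⟨r, t, ht, rfl⟩ : ∃ r t, t < 18 ∧ n = 18 * r + t :=
    ⟨n / 18, n % 18, Nat.mod_lt _ (by norm_num), by omega⟩
  split_ifs with h
  · rcases Nat.lt_or_ge t 9 with h9 | h9
    · have hq : (18 * r + t) / 9 = 2 * r := by omega
      rw [hq, b_even]
      have : t = 1 ∨ t = 4 ∨ t = 7 := by omega
      rcases this with rfl | rfl | rfl
      · rw [show 18 * r + 1 = 2 * (3 * (3 * r)) + 1 by ring, b_odd, c_three, c_three,
          v_zero (by omega)]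
        omega
      · rw [show 18 * r + 4 = 2 * (3 * (3 * r) + 2) by ring, b_even, c_three_two, c_three,
          v_zero (by omega)]
        omega
      · rw [show 18 * r + 7 = 2 * (3 * (3 * r + 1)) + 1 by ring, b_odd, c_three, c_three_one,
          v_zero (by omega)]
        omega
    · have hq : (18 * r + t) / 9 = 2 * r + 1 := by omega
      rw [hq, b_odd]
      have : t = 10 ∨ t = 13 ∨ t = 16 := by omega
      rcases this with rfl | rfl | rfl
      · rw [show 18 * r + 10 = 2 * (3 * (3 * r + 1) + 2) by ring, b_even, c_three_two,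
          c_three_one, show 2 * (3 * r + 1) + 1 = 3 * (2 * r + 1) by ring, v_three _ (by omega)]
        omega
      · rw [show 18 * r + 13 = 2 * (3 * (3 * r + 2)) + 1 by ring, b_odd, c_three, c_three_two,
          v_zero (by omega)]
        omega
      · rw [show 18 * r + 16 = 2 * (3 * (3 * r + 2) + 2) by ring, b_even, c_three_two,
          c_three_two, v_zero (by omega)]
        omega
  · obtain ⟨s, u, hu, e⟩ : ∃ s u, u < 6 ∧ 18 * r + t = 6 * s + u :=
      ⟨(18 * r + t) / 6, (18 * r + t) % 6, Nat.mod_lt _ (by norm_num), by omega⟩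
    rw [e] at h ⊢
    have : u = 0 ∨ u = 2 ∨ u = 3 ∨ u = 5 := by omega
    rcases this with rfl | rfl | rfl | rfl
    · rw [show (6 * s + 0) / 3 = 2 * s by omega, show 6 * s + 0 = 2 * (3 * s) by ring, b_even,
        b_even, c_three]
      omega
    · rw [show (6 * s + 2) / 3 = 2 * s by omega, show 6 * s + 2 = 2 * (3 * s + 1) by ring, b_even,
        b_even, c_three_one]
      omega
    · rw [show (6 * s + 3) / 3 = 2 * s + 1 by omega,
        show 6 * s + 3 = 2 * (3 * s + 1) + 1 by ring, b_odd, b_odd, c_three_one,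
        show 2 * (3 * s + 1) + 1 = 3 * (2 * s + 1) by ring, v_three _ (by omega)]
      omega
    · rw [show (6 * s + 5) / 3 = 2 * s + 1 by omega,
        show 6 * s + 5 = 2 * (3 * s + 2) + 1 by ring, b_odd, b_odd, c_three_two,
        v_zero (by omega)]
      omega

end Pool.Agent.Results.MP_a9cc6a_nt.DelannoyThree
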